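import Pool.Agent.T9h77.QD.Rb2
import Pool.Agent.T9h42.GF.Rob3

/-!
# The vector valued dispersion lemma, part 3
-/

set_option autoImplicit false
set_option linter.unusedSectionVars false

namespace Pool.Agent.T9h77.QD

open Finset Pool.Agent.T9h42.GF Pool.Agent.T9h57.QD
open Pool.Agent.T9h71.GF (mix_mix mix_tower)
open Pool.Agent.T9h42.GF.Rob (mix_inter mix_of_subset moeb moeb_zero expand card_le_K sum_le_K
  Dep)

section key

variable {ι : Type} [Fintype ι] [DecidableEq ι] {Ω : ι → Type} [∀ i, Fintype (Ω i)]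
  {p : ∀ i, Ω i → ℝ}

theorem pmix_dep {S R : Finset ι} (hR : R ⊆ S) {z z' : ∀ i, Ω i} (h : ∀ i ∈ S, z i = z' i)
    (y : ∀ i, Ω i) : mix R z y = mix R z' y := by
  funext i
  unfold mix
  by_cases hi : i ∈ R
  · simp [hi, h i (hR hi)]
  · simp [hi]

theorem pce_mul_dep {S V : Finset ι} (hSV : S ⊆ V) {f : (∀ i, Ω i) → ℝ} (hf : Dep S f)
    (W : (∀ i, Ω i) → ℝ) (z : ∀ i, Ω i) :
    pce p V (fun z => W z * f z) z = pce p V W z * f z := by
  unfold pce
  have h1 : ∀ y, f (mix V z y) = f z := fun y => hf _ _ fun i hi => by simp [mix, hSV hi]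
  simp only [h1]
  have h2 := pav_mul (p := p) (f z) (fun y => W (mix V z y))
  rw [mul_comm, ← h2]
  simp only [mul_comm]

theorem pce_sub (T : Finset ι) (f g : (∀ i, Ω i) → ℝ) (x : ∀ i, Ω i) :
    pce p T (fun z => f z - g z) x = pce p T f x - pce p T g x := pav_sub _ _

theorem pce_add (T : Finset ι) (f g : (∀ i, Ω i) → ℝ) (x : ∀ i, Ω i) :
    pce p T (fun z => f z + g z) x = pce p T f x + pce p T g x := pav_add _ _

theorem pce_mono (hp : IsP p) {T : Finset ι} {f g : (∀ i, Ω i) → ℝ} (h : ∀ z, f z ≤ g z)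
    (x : ∀ i, Ω i) : pce p T f x ≤ pce p T g x := pav_mono hp fun _ => h _

theorem pce_sum (T : Finset ι) {A : Type} (s : Finset A) (f : A → (∀ i, Ω i) → ℝ)
    (x : ∀ i, Ω i) : pce p T (fun z => ∑ a ∈ s, f a z) x = ∑ a ∈ s, pce p T (f a) x :=
  pav_sum s _

theorem pce_cmul (T : Finset ι) (c : ℝ) (f : (∀ i, Ω i) → ℝ) (x : ∀ i, Ω i) :
    pce p T (fun z => c * f z) x = c * pce p T f x := pav_mul c _

theorem abs_pce (hp : IsP p) (T : Finset ι) (f : (∀ i, Ω i) → ℝ) (x : ∀ i, Ω i) :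
    |pce p T f x| ≤ pce p T (fun z => |f z|) x := abs_pav hp _

/-- change of measure. -/
theorem pchange (hp : IsP p) {r : ℕ} {θ ρ : ℝ} {W g : (∀ i, Ω i) → ℝ} (hθ : 0 < θ)
    (hρ : 0 < ρ) (hρ1 : ρ ≤ 1)
    (hg : ∀ U : Finset ι, U.card ≤ 2 * r → ∀ x, |pce p U W x - 1| ≤ g x) (hg0 : ∀ x, 0 ≤ g x)
    {x : ∀ i, Ω i} (hx : Gd p r θ ρ g x) {T S : Finset ι} (hT : T.card ≤ r) (hS : S.card ≤ r)
    {f : (∀ i, Ω i) → ℝ} (hf : Dep S f) {B : ℝ} (hB : ∀ z, |f z| ≤ B) :
    |pce p T (fun z => W z * f z) x - pce p T f x| ≤ B * θ := by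
  have hB0 : 0 ≤ B := (abs_nonneg _).trans (hB x)
  have h1 : pce p T (fun z => W z * f z) x - pce p T f x =
      pce p T (fun z => (pce p (S ∪ T) W z - 1) * f z) x := by
    rw [← pce_tower hp (subset_union_right : T ⊆ S ∪ T) (fun z => W z * f z), ← pce_sub]
    congr 1
    funext z
    rw [pce_mul_dep subset_union_left hf]
    ring
  rw [h1]
  refine (abs_pce hp _ _ _).trans ?_
  have h2 : ∀ z, |(pce p (S ∪ T) W z - 1) * f z| ≤ B * g z := by
    intro z
    rw [abs_mul, mul_comm]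
    refine mul_le_mul (hB z) (hg _ ?_ z) (abs_nonneg _) hB0
    have := card_union_le S T
    omega
  refine (pce_mono hp h2 x).trans ?_
  rw [pce_cmul]
  refine mul_le_mul_of_nonneg_left ((hx T hT).trans ?_) hB0
  have := pow_le_one₀ (n := r - T.card) hρ.le hρ1
  nlinarith

/-- `|F|` of a function of degree `≤ r` at a point all of whose mixtures are good. -/
theorem bd_good {r : ℕ} {θ ρ : ℝ} {F g : (∀ i, Ω i) → ℝ} (hF : Deg r F) {y z : ∀ i, Ω i}
    {M : ℝ} (hM0 : 0 ≤ M) (hM : ∀ z, Gd p r θ ρ g z → |F z| ≤ M)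
    (hz : ∀ S : Finset ι, S.card ≤ r → ∀ R ∈ S.powerset, Gd p r θ ρ g (mix R z y)) :
    |F z| ≤ (2 ^ Fintype.card ι) ^ 2 * M := by
  set K : ℝ := 2 ^ Fintype.card ι with hK
  have hK0 : 0 < K := by positivity
  rw [expand hF z y]
  refine (abs_sum_le_sum_abs _ _).trans ((sum_le_K _ _ (K * M) (by positivity) fun S hS => ?_).trans
    (le_of_eq (by rw [← hK]; ring)))
  refine (abs_sum_le_sum_abs _ _).trans (sum_le_K _ _ _ hM0 fun T hT => ?_)
  rw [abs_mul, abs_pow, abs_neg, abs_one, one_pow, one_mul]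
  exact hM _ (hz S (mem_filter.1 hS).2 T hT)

theorem pkey (hp : IsP p) {r : ℕ} {θ ρ η₁ ε : ℝ} {W F g : (∀ i, Ω i) → ℝ} (hθ : 0 < θ)
    (hθ1 : θ ≤ 1) (hρ : 0 < ρ)
    (hρ1 : ρ ≤ 1) (hη₁ : 0 < η₁) (hε : 0 ≤ ε) (hW : ∀ x, 0 ≤ W x) (hF : Deg r F)
    (hg : ∀ U : Finset ι, U.card ≤ 2 * r → ∀ x, |pce p U W x - 1| ≤ g x) (hg0 : ∀ x, 0 ≤ g x)
    {x y : ∀ i, Ω i} (hx : Gd p r θ ρ g x) {M : ℝ} (hM : ∀ z, Gd p r θ ρ g z → |F z| ≤ M)
    (hWF : ∀ z, W z ≠ 0 → (∀ S : Finset ι, S.card ≤ r → ∀ R ∈ S.powerset,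
      Gd p r θ ρ g (mix R z y)) → |F z| ≤ ε * M)
    (hy1 : ∀ T : Finset ι, T.card ≤ r → Gd p r θ ρ g (mix T x y))
    (hy2 : ∀ T S : Finset ι, T.card ≤ r →
      ppr p (fun z => ∃ R ∈ S.powerset, ¬ Gd p r θ ρ g (mix R (mix T x z) y)) ≤ η₁) :
    |F x| ≤ (2 ^ Fintype.card ι) ^ 5 * (η₁ + 2 * θ + 2 * ε) * M := by
  classical
  set K : ℝ := 2 ^ Fintype.card ι with hK
  have hK1 : 1 ≤ K := one_le_pow₀ (by norm_num)
  have hK0 : 0 < K := by positivity
  have hM0 : 0 ≤ M := (abs_nonneg _).trans (hM x hx)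
  set Fr := univ.filter (fun T : Finset ι => T.card ≤ r) with hFr
  set A : Finset ι → (∀ i, Ω i) → Prop := fun S z => ∀ R ∈ S.powerset,
    Gd p r θ ρ g (mix R z y) with hA
  set FS : Finset ι → (∀ i, Ω i) → ℝ := fun S z => ∑ T ∈ S.powerset,
    (-1 : ℝ) ^ (S.card + T.card) * F (mix T z y) with hFS
  set HS : Finset ι → (∀ i, Ω i) → ℝ := fun S z => if A S z then FS S z else 0 with hHS
  set IS : Finset ι → (∀ i, Ω i) → ℝ := fun S z => if ¬ A S z then 1 else 0 with hIS
  set H : (∀ i, Ω i) → ℝ := fun z => ∑ S ∈ Fr, HS S z with hH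
  have dA : ∀ S, Dep S (A S) := by
    intro S z z' h
    rw [hA, eq_iff_iff]
    refine forall₂_congr fun R hR => ?_
    rw [pmix_dep (mem_powerset.1 hR) h]
  have dFS : ∀ S, Dep S (FS S) := by
    intro S z z' h
    rw [hFS]
    refine sum_congr rfl fun R hR => ?_
    rw [pmix_dep (mem_powerset.1 hR) h]
  have dHS : ∀ S, Dep S (HS S) := by
    intro S z z' h
    show (if A S z then FS S z else 0) = if A S z' then FS S z' else 0
    have e := dA S z z' h
    by_cases h1 : A S z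
    · rw [if_pos h1, if_pos (e ▸ h1), dFS S z z' h]
    · rw [if_neg h1, if_neg (e ▸ h1)]
  have dIS : ∀ S, Dep S (IS S) := by
    intro S z z' h
    show (if ¬ A S z then (1 : ℝ) else 0) = if ¬ A S z' then (1 : ℝ) else 0
    have e := dA S z z' h
    by_cases h1 : A S z
    · rw [if_neg (not_not.2 h1), if_neg (not_not.2 (e ▸ h1))]
    · rw [if_pos h1, if_pos (e ▸ h1)]
  have hDeg : Deg r H := by
    refine ⟨HS, fun S z z' h => dHS S z z' h, fun z => ?_⟩
    rfl
  have bHS : ∀ S z, |HS S z| ≤ K * M := by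
    intro S z
    show |if A S z then FS S z else 0| ≤ K * M
    by_cases h : A S z
    · rw [if_pos h]
      refine (abs_sum_le_sum_abs _ _).trans (sum_le_K _ _ _ hM0 fun T hT => ?_)
      rw [abs_mul, abs_pow, abs_neg, abs_one, one_pow, one_mul]
      exact hM _ (h T hT)
    · rw [if_neg h, abs_zero]
      positivity
  have bIS : ∀ S z, |IS S z| ≤ 1 := by
    intro S z
    show |if ¬ A S z then (1 : ℝ) else 0| ≤ 1
    split_ifs <;> simp
  have nIS : ∀ S z, 0 ≤ IS S z := by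
    intro S z
    show 0 ≤ if ¬ A S z then (1 : ℝ) else 0
    split_ifs
    · exact le_refl _
    · exact zero_le_one
  -- `W H` is small
  have hWH : ∀ z, |W z * H z| ≤ K * (K * M) * ∑ S ∈ Fr, W z * IS S z + (ε * M) * W z := by
    intro z
    by_cases hall : ∀ S ∈ Fr, A S z
    · have h1 : H z = F z := by
        rw [expand hF z y]
        refine sum_congr rfl fun S hS => ?_
        show (if A S z then FS S z else 0) = _
        rw [if_pos (hall S hS)]
      have h2 : |W z * H z| ≤ (ε * M) * W z := by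
        rw [h1]
        by_cases hw : W z = 0
        · rw [hw, zero_mul, mul_zero, abs_zero]
        · rw [abs_mul, abs_of_nonneg (hW z), mul_comm]
          exact mul_le_mul_of_nonneg_right (hWF z hw fun S hS => hall S
            (mem_filter.2 ⟨mem_univ _, hS⟩)) (hW z)
      have h3 : 0 ≤ K * (K * M) * ∑ S ∈ Fr, W z * IS S z :=
        mul_nonneg (by positivity) (sum_nonneg fun S _ => mul_nonneg (hW z) (nIS S z))
      linarith
    · push Not at hall
      obtain ⟨S, hS, hAS⟩ := hall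
      have h3 : |H z| ≤ K * (K * M) :=
        (abs_sum_le_sum_abs _ _).trans (sum_le_K _ _ _ (by positivity) fun S _ => bHS S z)
      have h4 : W z ≤ ∑ S ∈ Fr, W z * IS S z := by
        have h5 : W z * IS S z = W z := by
          have : IS S z = 1 := if_pos hAS
          rw [this, mul_one]
        calc W z = W z * IS S z := h5.symm
          _ ≤ _ := single_le_sum (f := fun S => W z * IS S z)
            (fun S _ => mul_nonneg (hW z) (nIS S z)) hS
      have h6 : |W z * H z| ≤ K * (K * M) * ∑ S ∈ Fr, W z * IS S z := by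
        rw [abs_mul, abs_of_nonneg (hW z), mul_comm]
        exact mul_le_mul h3 h4 (hW z) (by positivity)
      have h7 : 0 ≤ (ε * M) * W z := mul_nonneg (mul_nonneg hε hM0) (hW z)
      linarith
  -- the conditional expectations of `H`
  have hce : ∀ T ∈ Fr, |pce p T H x| ≤ K ^ 3 * (η₁ + 2 * θ + 2 * ε) * M := by
    intro T hT
    have hTr : T.card ≤ r := (mem_filter.1 hT).2
    have hW1 : pce p T W x ≤ 2 := by
      have h2 := pchange hp hθ hρ hρ1 hg hg0 hx hTr (S := ∅) (by simp)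
        (f := fun _ => (1 : ℝ)) (fun _ _ _ => rfl) (B := 1) (fun _ => by simp)
      simp only [mul_one] at h2
      have h3 : pce p T (fun _ => (1 : ℝ)) x = 1 := pav_const hp 1
      rw [h3, one_mul] at h2
      have := (abs_le.1 h2).2
      linarith
    have h1 : |pce p T (fun z => W z * H z) x| ≤
        K * (K * M) * (K * (η₁ + θ)) + (ε * M) * 2 := by
      refine (abs_pce hp _ _ _).trans ((pce_mono hp hWH x).trans ?_)
      rw [pce_add, pce_cmul, pce_cmul, pce_sum]
      refine add_le_add (mul_le_mul_of_nonneg_left (sum_le_K _ _ _ (by positivity)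
        fun S hS => ?_) (by positivity)) (mul_le_mul_of_nonneg_left hW1 (mul_nonneg hε hM0))
      have h2 := pchange hp hθ hρ hρ1 hg hg0 hx hTr (mem_filter.1 hS).2 (dIS S) (bIS S)
      have h3 : pce p T (IS S) x ≤ η₁ := by
        refine le_trans (le_of_eq ?_) (hy2 T S hTr)
        unfold pce ppr
        congr 1
        funext z
        show (if ¬ A S (mix T x z) then (1 : ℝ) else 0) = _
        have h4 : (¬ A S (mix T x z)) ↔ ∃ R ∈ S.powerset,
            ¬ Gd p r θ ρ g (mix R (mix T x z) y) := by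
          rw [hA]
          simp only [not_forall, exists_prop]
        by_cases h5 : A S (mix T x z)
        · rw [if_neg (not_not.2 h5), if_neg (fun h => h4.2 h h5)]
        · rw [if_pos h5, if_pos (h4.1 h5)]
      have h5 := (abs_le.1 h2).2
      linarith
    have h6 : |pce p T (fun z => W z * H z) x - pce p T H x| ≤ K * (K * M * θ) := by
      have h7 : pce p T (fun z => W z * H z) x - pce p T H x =
          ∑ S ∈ Fr, (pce p T (fun z => W z * HS S z) x - pce p T (HS S) x) := by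
        rw [sum_sub_distrib, ← pce_sum, ← pce_sum]
        congr 2
        funext z
        rw [hH, mul_sum]
      rw [h7]
      refine (abs_sum_le_sum_abs _ _).trans (sum_le_K _ _ _ (by positivity) fun S hS => ?_)
      exact pchange hp hθ hρ hρ1 hg hg0 hx hTr (mem_filter.1 hS).2 (dHS S) (bHS S)
    have h8 : |pce p T H x| ≤ K * (K * M) * (K * (η₁ + θ)) + (ε * M) * 2 +
        K * (K * M * θ) := by
      have h9 : pce p T H x = pce p T (fun z => W z * H z) x -
          (pce p T (fun z => W z * H z) x - pce p T H x) := by ring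
      rw [h9]
      exact (abs_sub _ _).trans (add_le_add h1 h6)
    refine h8.trans ?_
    have h10 : K * (K * M * θ) ≤ K ^ 3 * M * θ := by
      have : K * (K * M * θ) * 1 ≤ K * (K * M * θ) * K :=
        mul_le_mul_of_nonneg_left hK1 (by positivity)
      nlinarith
    have h11 : (ε * M) * 2 ≤ K ^ 3 * (ε * M) * 2 := by
      have h12 : (1 : ℝ) ≤ K ^ 3 := one_le_pow₀ hK1
      have h13 : 0 ≤ ε * M := mul_nonneg hε hM0
      nlinarith
    nlinarith
  -- `H x = F x`
  have hHx : H x = F x := by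
    rw [expand hF x y]
    refine sum_congr rfl fun S hS => ?_
    show (if A S x then FS S x else 0) = _
    rw [if_pos]
    intro R hR
    exact hy1 R ((card_le_card (mem_powerset.1 hR)).trans (mem_filter.1 hS).2)
  rw [← hHx, pexpand_av hp hDeg x]
  have h20 : ∀ S ∈ Fr, |∑ T ∈ S.powerset, (-1 : ℝ) ^ (S.card + T.card) * pce p T H x| ≤
      K * (K ^ 3 * (η₁ + 2 * θ + 2 * ε) * M) := by
    intro S hS
    refine (abs_sum_le_sum_abs _ _).trans (sum_le_K _ _ _ (by positivity) fun T hT => ?_)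
    rw [abs_mul, abs_pow, abs_neg, abs_one, one_pow, one_mul]
    exact hce T (mem_filter.2 ⟨mem_univ _,
      (card_le_card (mem_powerset.1 hT)).trans (mem_filter.1 hS).2⟩)
  refine (abs_sum_le_sum_abs _ _).trans ((sum_le_K _ _ _ (by positivity) h20).trans (le_of_eq ?_))
  ring

end key

theorem robustVec : RobustVec := by
  classical
  intro n r C₀ η hC₀ hη
  set K : ℝ := 2 ^ n with hK
  have hK1 : 1 ≤ K := one_le_pow₀ (by norm_num)
  have hK0 : 0 < K := by positivity
  set nn : ℝ := (n : ℝ) + 1 with hnn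
  have hn1 : 1 ≤ nn := by
    have : (0 : ℝ) ≤ n := Nat.cast_nonneg n
    linarith
  have hn0 : 0 < nn := by linarith
  set θ : ℝ := 1 / (4 * nn * K ^ 5) with hθ
  have hθ0 : 0 < θ := by positivity
  set ρ : ℝ := θ / (4 * K ^ 4) with hρ
  have hρ0 : 0 < ρ := by positivity
  have hK5 : 1 ≤ nn * K ^ 5 := one_le_mul_of_one_le_of_one_le hn1 (one_le_pow₀ hK1)
  have hθ1 : θ ≤ 1 := by
    rw [hθ, div_le_one (by positivity)]
    nlinarith
  have hρθ : ρ ≤ θ := by
    rw [hρ, div_le_iff₀ (by positivity)]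
    have := one_le_pow₀ (n := 4) hK1
    nlinarith
  have hρ1 : ρ ≤ 1 := hρθ.trans hθ1
  set δ : ℝ := min (η * θ * ρ ^ r / (nn * K ^ 2)) (1 / (32 * nn ^ 3 * C₀ * K ^ 7)) with hδ
  have hδ0 : 0 < δ := lt_min (by positivity) (by positivity)
  refine ⟨δ, hδ0, ?_⟩
  intro ι _ _ Ω _ hn p hp1 hp2 J L _ _ hJ hL W F Λ hW hce hF hΛ hWF
  have hp : IsP p := ⟨hp1, hp2⟩
  set k : ℝ := 2 ^ Fintype.card ι with hk
  have hk1 : 1 ≤ k := one_le_pow₀ (by norm_num)
  have hkK : k ≤ K := pow_le_pow_right₀ (by norm_num) hn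
  have hk0 : 0 < k := by positivity
  have hJn : (Fintype.card J : ℝ) ≤ nn := by
    have : (Fintype.card J : ℝ) ≤ n := by exact_mod_cast hJ
    linarith
  have hLn : (Fintype.card L : ℝ) ≤ nn := by
    have : (Fintype.card L : ℝ) ≤ n := by exact_mod_cast hL
    linarith
  set g : (∀ i, Ω i) → ℝ := fun x => ∑ j, 
    ∑ U ∈ univ.filter (fun U : Finset ι => U.card ≤ 2 * r), |pce p U (W j) x - 1| with hg
  have hg0 : ∀ x, 0 ≤ g x := fun x => sum_nonneg fun j _ => sum_nonneg fun U _ => abs_nonneg _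
  have hgU : ∀ (j : J) (U : Finset ι), U.card ≤ 2 * r → ∀ x, |pce p U (W j) x - 1| ≤ g x := by
    intro j U hU x
    have hmem : U ∈ univ.filter (fun U : Finset ι => U.card ≤ 2 * r) :=
      mem_filter.2 ⟨mem_univ _, hU⟩
    refine (single_le_sum (f := fun U : Finset ι => |pce p U (W j) x - 1|)
      (fun U _ => abs_nonneg _) hmem).trans ?_
    exact single_le_sum (f := fun j : J => ∑ U ∈ univ.filter
      (fun U : Finset ι => U.card ≤ 2 * r), |pce p U (W j) x - 1|)
      (fun j _ => sum_nonneg fun U _ => abs_nonneg _) (mem_univ j)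
  have hav : pav p g ≤ nn * (k * δ) := by
    rw [hg, pav_sum]
    have h1 : ∀ j ∈ (univ : Finset J), pav p (fun x => ∑ U ∈ univ.filter
        (fun U : Finset ι => U.card ≤ 2 * r), |pce p U (W j) x - 1|) ≤ k * δ := by
      intro j _
      rw [pav_sum]
      exact sum_le_K _ _ _ hδ0.le fun U hU => hce j U (mem_filter.1 hU).2
    refine (sum_le_sum h1).trans ?_
    rw [sum_const, card_univ, nsmul_eq_mul]
    exact mul_le_mul_of_nonneg_right hJn (by positivity)
  -- the combinations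
  set f : J → (∀ i, Ω i) → ℝ := fun j x => ∑ l, Λ j l * F l x with hf
  have hfD : ∀ j, Deg r (f j) := by
    intro j
    choose G hG1 hG2 using hF
    refine ⟨fun S x => ∑ l, Λ j l * G l S x, fun S x y h => ?_, fun x => ?_⟩
    · exact sum_congr rfl fun l _ => by rw [hG1 l S x y h]
    · rw [hf]
      simp only [hG2, mul_sum]
      rw [sum_comm]
  have hFf : ∀ x l, |F l x| ≤ C₀ * ∑ j, |f j x| := by
    intro x l
    refine hΛ (fun l => F l x) (∑ j, |f j x|) (fun j => ?_) l
    exact single_le_sum (f := fun j => |f j x|) (fun j _ => abs_nonneg _) (mem_univ j)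
  -- `f = 0` on good points
  have hzero : ∀ x, Gd p r θ ρ g x → ∑ j, |f j x| = 0 := by
    intro x₀ hx₀
    obtain ⟨x, hx, hmax⟩ := exists_max_image (univ.filter (fun x => Gd p r θ ρ g x))
      (fun x => ∑ j, |f j x|) ⟨x₀, mem_filter.2 ⟨mem_univ _, hx₀⟩⟩
    rw [mem_filter] at hx
    set M : ℝ := ∑ j, |f j x| with hMdef
    have hM0 : 0 ≤ M := sum_nonneg fun j _ => abs_nonneg _
    have hM : ∀ z, Gd p r θ ρ g z → ∑ j, |f j z| ≤ M := fun z hz =>
      hmax z (mem_filter.2 ⟨mem_univ _, hz⟩)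
    have hMj : ∀ j z, Gd p r θ ρ g z → |f j z| ≤ M := fun j z hz =>
      (single_le_sum (f := fun j => |f j z|) (fun j _ => abs_nonneg _) (mem_univ j)).trans (hM z hz)
    have hsm : k ^ 2 * ρ + k ^ 4 * ρ / θ < 1 := by
      have h1 : k ^ 4 * ρ / θ ≤ 1 / 4 := by
        have h2 : k ^ 4 * ρ / θ = k ^ 4 / (4 * K ^ 4) := by
          rw [hρ]
          field_simp
        rw [h2, div_le_div_iff₀ (by positivity) (by norm_num)]
        have := pow_le_pow_left₀ hk0.le hkK 4
        linarith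
      have h3 : k ^ 2 * ρ ≤ k ^ 4 * ρ / θ := by
        rw [le_div_iff₀ hθ0]
        have h4 : k ^ 2 ≤ k ^ 4 := pow_le_pow_right₀ hk1 (by norm_num)
        calc k ^ 2 * ρ * θ ≤ k ^ 2 * ρ * 1 := mul_le_mul_of_nonneg_left hθ1 (by positivity)
          _ ≤ k ^ 4 * ρ := by
            rw [mul_one]
            exact mul_le_mul_of_nonneg_right h4 hρ0.le
      linarith
    obtain ⟨y, hy1, hy2⟩ := pchoose_y hp hg0 hθ0 hρ0 hρ1 hθ0 hsm hx.2
    set ε : ℝ := δ * (nn * (C₀ * (nn * k ^ 2))) with hε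
    have hε0 : 0 ≤ ε := by positivity
    have hεs : ε ≤ 1 / (32 * nn * K ^ 5) := by
      have h1 : ε ≤ 1 / (32 * nn ^ 3 * C₀ * K ^ 7) * (nn * (C₀ * (nn * K ^ 2))) := by
        refine mul_le_mul (min_le_right _ _) ?_ (by positivity) (by positivity)
        have := pow_le_pow_left₀ hk0.le hkK 2
        gcongr
      refine h1.trans (le_of_eq ?_)
      field_simp
    have h5 : ∀ j, |f j x| ≤ k ^ 5 * (θ + 2 * θ + 2 * ε) * M := by
      intro j
      refine pkey hp hθ0 hθ1 hρ0 hρ1 hθ0 hε0 (hW j) (hfD j) (hgU j) hg0 hx.2 (hMj j) ?_ hy1 hy2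
      intro z hz hzA
      have h6 : ∀ j, |f j z| ≤ k ^ 2 * M := fun j => bd_good (hfD j) hM0 (hMj j) hzA
      have h7 : ∑ j, |f j z| ≤ nn * (k ^ 2 * M) := by
        refine (sum_le_sum fun j _ => h6 j).trans ?_
        rw [sum_const, card_univ, nsmul_eq_mul]
        exact mul_le_mul_of_nonneg_right hJn (by positivity)
      have h8 : ∑ l, |F l z| ≤ nn * (C₀ * (nn * (k ^ 2 * M))) := by
        refine (sum_le_sum fun l _ => (hFf z l).trans
          (mul_le_mul_of_nonneg_left h7 hC₀.le)).trans ?_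
        rw [sum_const, card_univ, nsmul_eq_mul]
        exact mul_le_mul_of_nonneg_right hLn (by positivity)
      refine (hWF j z hz).trans ((mul_le_mul_of_nonneg_left h8 hδ0.le).trans (le_of_eq ?_))
      rw [hε]
      ring
    have h6 : k ^ 5 * (θ + 2 * θ + 2 * ε) ≤ 7 / (8 * nn) := by
      have h7 : k ^ 5 ≤ K ^ 5 := pow_le_pow_left₀ hk0.le hkK 5
      have h8 : K ^ 5 * θ = 1 / (4 * nn) := by
        rw [hθ]
        field_simp
      have h9 : K ^ 5 * ε ≤ 1 / (32 * nn) := by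
        refine (mul_le_mul_of_nonneg_left hεs (by positivity)).trans (le_of_eq ?_)
        field_simp
      have h10 : k ^ 5 * (θ + 2 * θ + 2 * ε) ≤ K ^ 5 * (θ + 2 * θ + 2 * ε) :=
        mul_le_mul_of_nonneg_right h7 (by positivity)
      have h11 : K ^ 5 * (θ + 2 * θ + 2 * ε) ≤ 3 * (1 / (4 * nn)) + 2 * (1 / (32 * nn)) := by
        nlinarith
      refine h10.trans (h11.trans ?_)
      rw [show 3 * (1 / (4 * nn)) + 2 * (1 / (32 * nn)) = (13 / 16) * (1 / nn) by
        field_simp; norm_num, show 7 / (8 * nn) = (7 / 8) * (1 / nn) by field_simp]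
      exact mul_le_mul_of_nonneg_right (by norm_num) (by positivity)
    have h9 : M ≤ 7 / 8 * M := by
      calc M = ∑ j, |f j x| := hMdef
        _ ≤ ∑ _j : J, 7 / (8 * nn) * M :=
          sum_le_sum fun j _ => (h5 j).trans (mul_le_mul_of_nonneg_right h6 hM0)
        _ = Fintype.card J * (7 / (8 * nn) * M) := by rw [sum_const, card_univ, nsmul_eq_mul]
        _ ≤ nn * (7 / (8 * nn) * M) := mul_le_mul_of_nonneg_right hJn (by positivity)
        _ = 7 / 8 * M := by field_simp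
    have h10 : M = 0 := le_antisymm (by linarith) hM0
    have h11 := hM x₀ hx₀
    rw [h10] at h11
    exact le_antisymm h11 (sum_nonneg fun j _ => abs_nonneg _)
  -- conclusion
  have h20 := ppr_not_gd hp hg0 hθ0 hρ0 hρ1 (r := r)
  rw [← hk] at h20
  have h21 : θ * ρ ^ r * ppr p (fun x => ¬ Gd p r θ ρ g x) ≤ θ * ρ ^ r * η := by
    refine h20.trans ((mul_le_mul_of_nonneg_left hav hk0.le).trans ?_)
    have h22 : k * (nn * (k * δ)) ≤ K * (nn * (K * (η * θ * ρ ^ r / (nn * K ^ 2)))) := by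
      have : δ ≤ η * θ * ρ ^ r / (nn * K ^ 2) := min_le_left _ _
      gcongr
    refine h22.trans (le_of_eq ?_)
    field_simp
  have h25 : ppr p (fun x => ¬ Gd p r θ ρ g x) ≤ η := le_of_mul_le_mul_left h21 (by positivity)
  have h26 : pav p (fun x => if ∀ l, F l x = 0 then (0 : ℝ) else 1) =
      ppr p (fun x => ¬ ∀ l, F l x = 0) := by
    unfold ppr
    congr 1
    funext x
    by_cases h : ∀ l, F l x = 0
    · rw [if_pos h, if_neg (not_not.2 h)]
    · rw [if_neg h, if_pos h]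
  have h27 := ppr_mono hp (P := fun x => ¬ ∀ l, F l x = 0) (Q := fun x => ¬ Gd p r θ ρ g x)
    (fun x hx hG => hx fun l => by
      have h28 := hFf x l
      rw [hzero x hG, mul_zero] at h28
      exact abs_eq_zero.1 (le_antisymm h28 (abs_nonneg _)))
  refine le_trans (le_of_eq ?_) (h27.trans h25)
  rw [← h26]

end Pool.Agent.T9h77.QD
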