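import Pool.Agent.T9h57.QD.Spec
import Pool.Agent.T9h42.GF.Rob

/-!
# The vector valued dispersion lemma, part 1 (weighted product measures)
-/

set_option autoImplicit false
set_option linter.unusedSectionVars false

namespace Pool.Agent.T9h77.QD

open Finset Pool.Agent.T9h42.GF Pool.Agent.T9h57.QD
open Pool.Agent.T9h71.GF (mix_mix mix_tower)
open Pool.Agent.T9h42.GF.Rob (mix_inter mix_of_subset moeb moeb_zero expand)

section basic

variable {ι : Type} [Fintype ι] [DecidableEq ι] {Ω : ι → Type} [∀ i, Fintype (Ω i)]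

/-- weights of a product probability. -/
structure IsP (p : ∀ i, Ω i → ℝ) : Prop where
  nn : ∀ i a, 0 ≤ p i a
  one : ∀ i, ∑ a, p i a = 1

variable {p : ∀ i, Ω i → ℝ}

theorem wt_nonneg (hp : IsP p) (y : ∀ i, Ω i) : 0 ≤ ∏ i, p i (y i) :=
  prod_nonneg fun i _ => hp.nn i _

theorem wt_sum (hp : IsP p) : ∑ y : (∀ i, Ω i), ∏ i, p i (y i) = 1 := by
  have h := Finset.prod_univ_sum (fun i => (univ : Finset (Ω i))) p
  rw [Fintype.piFinset_univ] at h
  rw [← h]
  exact prod_eq_one fun i _ => hp.one i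

theorem pav_const (hp : IsP p) (c : ℝ) : pav p (fun _ => c) = c := by
  unfold pav
  rw [← sum_mul, wt_sum hp, one_mul]

theorem pav_add (f g : (∀ i, Ω i) → ℝ) : pav p (fun x => f x + g x) = pav p f + pav p g := by
  unfold pav
  simp only [mul_add, sum_add_distrib]

theorem pav_sub (f g : (∀ i, Ω i) → ℝ) : pav p (fun x => f x - g x) = pav p f - pav p g := by
  unfold pav
  simp only [mul_sub, sum_sub_distrib]

theorem pav_mul (c : ℝ) (f : (∀ i, Ω i) → ℝ) : pav p (fun x => c * f x) = c * pav p f := by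
  unfold pav
  rw [mul_sum]
  exact sum_congr rfl fun x _ => by ring

theorem pav_sum {A : Type} (s : Finset A) (f : A → (∀ i, Ω i) → ℝ) :
    pav p (fun x => ∑ a ∈ s, f a x) = ∑ a ∈ s, pav p (f a) := by
  unfold pav
  simp only [mul_sum]
  rw [sum_comm]

theorem pav_nonneg (hp : IsP p) {f : (∀ i, Ω i) → ℝ} (hf : ∀ x, 0 ≤ f x) : 0 ≤ pav p f :=
  sum_nonneg fun x _ => mul_nonneg (wt_nonneg hp x) (hf x)

theorem pav_mono (hp : IsP p) {f g : (∀ i, Ω i) → ℝ} (h : ∀ x, f x ≤ g x) :
    pav p f ≤ pav p g :=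
  sum_le_sum fun x _ => mul_le_mul_of_nonneg_left (h x) (wt_nonneg hp x)

theorem abs_pav (hp : IsP p) (f : (∀ i, Ω i) → ℝ) : |pav p f| ≤ pav p (fun x => |f x|) := by
  unfold pav
  refine (abs_sum_le_sum_abs _ _).trans (sum_le_sum fun x _ => ?_)
  rw [abs_mul, abs_of_nonneg (wt_nonneg hp x)]

theorem pav_comm (f : (∀ i, Ω i) → (∀ i, Ω i) → ℝ) :
    pav p (fun y => pav p (fun z => f y z)) = pav p (fun z => pav p (fun y => f y z)) := by
  unfold pav
  simp only [mul_sum]
  rw [sum_comm]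
  exact sum_congr rfl fun x _ => sum_congr rfl fun y _ => by ring

theorem wt_mix (S : Finset ι) (z y : ∀ i, Ω i) :
    (∏ i, p i (mix S z y i)) * (∏ i, p i (mix S y z i)) =
      (∏ i, p i (z i)) * ∏ i, p i (y i) := by
  rw [← prod_mul_distrib, ← prod_mul_distrib]
  refine prod_congr rfl fun i _ => ?_
  unfold mix
  split_ifs
  · rfl
  · exact mul_comm _ _

theorem pav_mix (hp : IsP p) (S : Finset ι) (F : (∀ i, Ω i) → ℝ) :
    pav p (fun z => pav p (fun y => F (mix S z y))) = pav p F := by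
  let e : (∀ i, Ω i) × (∀ i, Ω i) ≃ (∀ i, Ω i) × (∀ i, Ω i) :=
    ⟨fun p => (mix S p.1 p.2, mix S p.2 p.1), fun p => (mix S p.1 p.2, mix S p.2 p.1),
      fun p => by simp only [mix_mix], fun p => by simp only [mix_mix]⟩
  have h1 : pav p (fun z => pav p (fun y => F (mix S z y))) =
      ∑ q : (∀ i, Ω i) × (∀ i, Ω i),
        (fun q : (∀ i, Ω i) × (∀ i, Ω i) =>
          ((∏ i, p i (q.1 i)) * ∏ i, p i (q.2 i)) * F q.1) (e q) := by
    rw [Fintype.sum_prod_type]
    unfold pav
    refine sum_congr rfl fun z _ => ?_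
    rw [mul_sum]
    refine sum_congr rfl fun y _ => ?_
    show _ = ((∏ i, p i (mix S z y i)) * ∏ i, p i (mix S y z i)) * F (mix S z y)
    rw [wt_mix]
    ring
  rw [h1, e.sum_comp (fun q : (∀ i, Ω i) × (∀ i, Ω i) =>
          ((∏ i, p i (q.1 i)) * ∏ i, p i (q.2 i)) * F q.1), Fintype.sum_prod_type]
  unfold pav
  refine sum_congr rfl fun z _ => ?_
  have h2 : ∀ y : (∀ i, Ω i), (∏ i, p i (z i)) * (∏ i, p i (y i)) * F z =
      ((∏ i, p i (z i)) * F z) * ∏ i, p i (y i) := fun y => by ring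
  simp only [h2]
  rw [← mul_sum, wt_sum hp, mul_one]

open Classical in
/-- probability. -/
noncomputable def ppr (p : ∀ i, Ω i → ℝ) (P : (∀ i, Ω i) → Prop) : ℝ :=
  pav p (fun x => if P x then 1 else 0)

theorem ppr_mono (hp : IsP p) {P Q : (∀ i, Ω i) → Prop} (h : ∀ x, P x → Q x) :
    ppr p P ≤ ppr p Q := by
  classical
  refine pav_mono hp fun x => ?_
  by_cases h1 : P x
  · rw [if_pos h1, if_pos (h x h1)]
  · rw [if_neg h1]
    split_ifs
    · exact zero_le_one
    · exact le_refl _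

theorem ppr_exists (hp : IsP p) {A : Type} (s : Finset A) (P : A → (∀ i, Ω i) → Prop) :
    ppr p (fun x => ∃ a ∈ s, P a x) ≤ ∑ a ∈ s, ppr p (P a) := by
  classical
  unfold ppr
  rw [← pav_sum]
  refine pav_mono hp fun x => ?_
  by_cases h : ∃ a ∈ s, P a x
  · rw [if_pos h]
    obtain ⟨a, ha, h2⟩ := h
    calc (1 : ℝ) = if P a x then (1 : ℝ) else 0 := by rw [if_pos h2]
      _ ≤ _ := single_le_sum (f := fun a => if P a x then (1 : ℝ) else 0) (fun b _ => by
          show (0 : ℝ) ≤ if P b x then (1 : ℝ) else 0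
          split_ifs
          · exact zero_le_one
          · exact le_refl _) ha
  · rw [if_neg h]
    exact sum_nonneg fun b _ => by
      split_ifs
      · exact zero_le_one
      · exact le_refl _

theorem pmarkov (hp : IsP p) {f : (∀ i, Ω i) → ℝ} (hf : ∀ x, 0 ≤ f x) (t : ℝ) (ht : 0 ≤ t) :
    t * ppr p (fun x => t < f x) ≤ pav p f := by
  classical
  unfold ppr
  rw [← pav_mul]
  refine pav_mono hp fun x => ?_
  by_cases h : t < f x
  · rw [if_pos h, mul_one]
    exact h.le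
  · rw [if_neg h, mul_zero]
    exact hf x

theorem exists_le_pav (hp : IsP p) (f : (∀ i, Ω i) → ℝ) : ∃ y, f y ≤ pav p f := by
  by_contra hcon
  push Not at hcon
  have h1 : pav p (fun y => f y - pav p f) = 0 := by
    rw [pav_sub, pav_const hp, sub_self]
  unfold pav at h1
  rw [sum_eq_zero_iff_of_nonneg fun y _ => mul_nonneg (wt_nonneg hp y)
    (sub_nonneg.2 (by have := hcon y; unfold pav at this; exact this.le))] at h1
  have h2 : ∀ y : (∀ i, Ω i), ∏ i, p i (y i) = 0 := by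
    intro y
    have h3 := h1 y (mem_univ y)
    have h4 := hcon y
    unfold pav at h4
    rcases mul_eq_zero.1 h3 with h5 | h5
    · exact h5
    · linarith
  have h6 := wt_sum hp
  rw [sum_eq_zero fun y _ => h2 y] at h6
  exact zero_ne_one h6

theorem pce_tower (hp : IsP p) {T S : Finset ι} (h : T ⊆ S) (f : (∀ i, Ω i) → ℝ) :
    pce p T (pce p S f) = pce p T f := by
  funext x
  have h1 := pav_mix hp S (fun w => f (mix T x w))
  unfold pce at h1 ⊢
  simp only [mix_tower h]
  exact h1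

theorem pav_pce (hp : IsP p) (S : Finset ι) (F : (∀ i, Ω i) → ℝ) :
    pav p (pce p S F) = pav p F := pav_mix hp S F

theorem pce_mix_of_subset {T S : Finset ι} (h : T ⊆ S) (f : (∀ i, Ω i) → ℝ) (x y : ∀ i, Ω i) :
    pce p T f (mix S x y) = pce p T f x := by
  unfold pce
  simp only [mix_of_subset h]

theorem pav_pce_mix (hp : IsP p) (T S : Finset ι) (f : (∀ i, Ω i) → ℝ) (x : ∀ i, Ω i) :
    pav p (fun y => pce p S f (mix T x y)) = pce p (T ∩ S) f x := by
  have h := pav_mix hp S (fun w => f (mix (T ∩ S) x w))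
  unfold pce at h ⊢
  simp only [mix_inter]
  exact h

theorem pexpand_av (hp : IsP p) {r : ℕ} {H : (∀ i, Ω i) → ℝ} (hH : Deg r H)
    (z : ∀ i, Ω i) :
    H z = ∑ S ∈ univ.filter (fun S : Finset ι => S.card ≤ r), ∑ T ∈ S.powerset,
      (-1 : ℝ) ^ (S.card + T.card) * pce p T H z := by
  have h1 : H z = pav p (fun y => ∑ S ∈ univ.filter (fun S : Finset ι => S.card ≤ r),
      ∑ T ∈ S.powerset, (-1 : ℝ) ^ (S.card + T.card) * H (mix T z y)) := by
    rw [← pav_const hp (H z)]
    congr 1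
    funext y
    exact expand hH z y
  rw [h1, pav_sum]
  refine sum_congr rfl fun S _ => ?_
  rw [pav_sum]
  refine sum_congr rfl fun T _ => ?_
  rw [pav_mul]
  rfl

end basic

end Pool.Agent.T9h77.QD
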