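import Pool.Agent.T9h57.QD.Spec2
import Pool.Agent.T9h77.QD.Rb1

/-!
# Typical points, part 1: multilinear algebra
-/

set_option autoImplicit false
set_option linter.unusedSectionVars false

namespace Pool.Agent.T9h77.QD

open Finset Pool.Agent.T9h42.GF Pool.Agent.T9h57.QD

section alg

variable {V W : Type} [AddCommGroup V] [Module ℝ V] [AddCommGroup W] [Module ℝ W]

/-- the coefficient of `X^k` in `f (a + X b)`. -/
noncomputable def cf {n : ℕ} (f : MultilinearMap ℝ (fun _ : Fin n => V) W) (a b : V) (k : ℕ) :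
    W :=
  ∑ S ∈ (univ : Finset (Finset (Fin n))).filter (fun S => S.card = k),
    f (S.piecewise (fun _ => b) (fun _ => a))

theorem cf_exp {n M : ℕ} (hn : n < M) (f : MultilinearMap ℝ (fun _ : Fin n => V) W) (a b : V)
    (X : ℝ) : f (fun _ => a + X • b) = ∑ k : Fin M, X ^ (k : ℕ) • cf f a b k := by
  classical
  have h1 : (fun _ : Fin n => a + X • b) = (fun _ : Fin n => X • b) + fun _ : Fin n => a := by
    funext i
    simp [add_comm]
  have h2 : ∀ S : Finset (Fin n), f (S.piecewise (fun _ => X • b) (fun _ => a)) =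
      X ^ S.card • f (S.piecewise (fun _ => b) (fun _ => a)) := by
    intro S
    have h3 := f.map_piecewise_smul (fun _ => X) (S.piecewise (fun _ => b) (fun _ => a)) S
    rw [prod_const] at h3
    rw [← h3]
    congr 1
    funext i
    by_cases hi : i ∈ S
    · simp [hi]
    · simp [hi]
  rw [h1, f.map_add_univ]
  simp only [h2]
  rw [Fin.sum_univ_eq_sum_range (fun k => X ^ k • cf f a b k) M]
  have h4 : ∀ S ∈ (univ : Finset (Finset (Fin n))), S.card ∈ range M := by
    intro S _
    rw [mem_range]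
    have := card_le_univ S
    rw [Fintype.card_fin] at this
    omega
  rw [← sum_fiberwise_of_maps_to h4]
  refine sum_congr rfl fun k _ => ?_
  rw [cf, smul_sum]
  refine sum_congr rfl fun S hS => ?_
  rw [(mem_filter.1 hS).2]

end alg

section deg

variable {ι : Type} [Fintype ι] [DecidableEq ι] {Ω : ι → Type}

theorem deg_of_sum {r : ℕ} {T : Type} [Fintype T] (D : T → Finset ι) (H : T → (∀ i, Ω i) → ℝ)
    (hD : ∀ t, (D t).card ≤ r) (hH : ∀ t x y, (∀ i ∈ D t, x i = y i) → H t x = H t y) :
    Deg r (fun x => ∑ t, H t x) := by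
  classical
  refine ⟨fun S x => ∑ t ∈ univ.filter (fun t => D t = S), H t x, ?_, ?_⟩
  · intro S x y h
    refine sum_congr rfl fun t ht => hH t x y ?_
    rw [(mem_filter.1 ht).2]; exact h
  · intro x
    exact (sum_fiberwise_of_maps_to (s := univ) (t := univ.filter (fun S : Finset ι => S.card ≤ r))
      (g := D) (fun t _ => mem_filter.2 ⟨mem_univ _, hD t⟩) (fun t => H t x)).symm

theorem Deg.sum {r : ℕ} {T : Type} (s : Finset T) {H : T → (∀ i, Ω i) → ℝ}
    (hH : ∀ t ∈ s, Deg r (H t)) : Deg r (fun x => ∑ t ∈ s, H t x) := by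
  classical
  choose! G hG1 hG2 using hH
  refine ⟨fun S x => ∑ t ∈ s, G t S x, fun S x y h => sum_congr rfl fun t ht => hG1 t ht S x y h,
    fun x => ?_⟩
  rw [sum_comm]
  exact sum_congr rfl fun t ht => hG2 t ht x

theorem Deg.mono {r r' : ℕ} (h : r ≤ r') {H : (∀ i, Ω i) → ℝ} (hH : Deg r H) : Deg r' H := by
  classical
  obtain ⟨G, hG1, hG2⟩ := hH
  refine ⟨fun S x => if S.card ≤ r then G S x else 0, fun S x y hxy => ?_, fun x => ?_⟩
  · show (if S.card ≤ r then G S x else 0) = if S.card ≤ r then G S y else 0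
    rw [hG1 S x y hxy]
  · rw [hG2 x, ← sum_filter]
    refine sum_congr ?_ fun _ _ => rfl
    ext S
    simp only [mem_filter, mem_univ, true_and]
    exact ⟨fun h1 => ⟨h1.trans h, h1⟩, fun h1 => h1.2⟩

theorem degM {n : ℕ} {V : Type} [AddCommGroup V] [Module ℝ V]
    (f : MultilinearMap ℝ (fun _ : Fin n => V) ℝ) (U : Fin n → Option ι → (∀ i, Ω i) → V)
    (hU : ∀ j o x y, (∀ i, o = some i → x i = y i) → U j o x = U j o y) :
    Deg n (fun x => f (fun j => ∑ o, U j o x)) := by
  classical
  have h : ∀ x : ∀ i, Ω i, f (fun j => ∑ o, U j o x) =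
      ∑ t : Fin n → Option ι, f (fun j => U j (t j) x) := by
    intro x
    rw [f.map_sum (fun j o => U j o x)]
  simp only [h]
  refine deg_of_sum (fun t => univ.filter (fun i => ∃ j, t j = some i)) _ ?_ ?_
  · intro t
    have h1 : (univ.filter (fun i => ∃ j, t j = some i)).card ≤ (univ.image t).card := by
      refine card_le_card_of_injOn some ?_ (Option.some_injective _).injOn
      intro i hi
      simp only [coe_filter, mem_univ, true_and, Set.mem_ofPred_eq] at hi
      rw [mem_coe, mem_image]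
      obtain ⟨j, hj⟩ := hi
      exact ⟨j, mem_univ _, hj⟩
    have h3 := card_image_le (s := (univ : Finset (Fin n))) (f := t)
    rw [card_univ, Fintype.card_fin] at h3
    omega
  · intro t x y hxy
    have h1 : (fun j => U j (t j) x) = fun j => U j (t j) y := by
      funext j
      exact hU _ _ _ _ fun i hi => hxy i (mem_filter.2 ⟨mem_univ _, ⟨j, hi⟩⟩)
    rw [h1]

theorem degQ {n : ℕ} {V : Type} [AddCommGroup V] [Module ℝ V]
    (f : MultilinearMap ℝ (fun _ : Fin n => V) (V →ₗ[ℝ] ℝ))
    (U : Fin n → Option ι → (∀ i, Ω i) → V) (W : Option ι → (∀ i, Ω i) → V)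
    (hU : ∀ j o x y, (∀ i, o = some i → x i = y i) → U j o x = U j o y)
    (hW : ∀ o x y, (∀ i, o = some i → x i = y i) → W o x = W o y) :
    Deg (n + 1) (fun x => f (fun j => ∑ o, U j o x) (∑ o, W o x)) := by
  classical
  have h : ∀ x : ∀ i, Ω i, f (fun j => ∑ o, U j o x) (∑ o, W o x) =
      ∑ t : (Fin n → Option ι) × Option ι, f (fun j => U j (t.1 j) x) (W t.2 x) := by
    intro x
    rw [f.map_sum (fun j o => U j o x), LinearMap.sum_apply, Fintype.sum_prod_type]
    refine sum_congr rfl fun g _ => ?_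
    rw [map_sum]
  simp only [h]
  refine deg_of_sum (fun t => univ.filter (fun i => t.2 = some i ∨ ∃ j, t.1 j = some i)) _ ?_ ?_
  · intro t
    have h1 : (univ.filter (fun i => t.2 = some i ∨ ∃ j, t.1 j = some i)).card ≤
        (insert t.2 (univ.image t.1)).card := by
      refine card_le_card_of_injOn some ?_ (Option.some_injective _).injOn
      intro i hi
      simp only [coe_filter, mem_univ, true_and, Set.mem_ofPred_eq] at hi
      rw [mem_coe, mem_insert, mem_image]
      rcases hi with hi | ⟨j, hj⟩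
      · exact .inl hi.symm
      · exact .inr ⟨j, mem_univ _, hj⟩
    have h2 := card_insert_le t.2 (univ.image t.1)
    have h3 := card_image_le (s := (univ : Finset (Fin n))) (f := t.1)
    rw [card_univ, Fintype.card_fin] at h3
    omega
  · intro t x y hxy
    have h1 : (fun j => U j (t.1 j) x) = fun j => U j (t.1 j) y := by
      funext j
      exact hU _ _ _ _ fun i hi => hxy i (mem_filter.2 ⟨mem_univ _, .inr ⟨j, hi⟩⟩)
    have h2 : W t.2 x = W t.2 y :=
      hW _ _ _ fun i hi => hxy i (mem_filter.2 ⟨mem_univ _, .inl hi⟩)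
    rw [h1, h2]

/-- the coefficients of `f` along sums over the slots have bounded degree. -/
theorem degM_cf {n : ℕ} {V : Type} [AddCommGroup V] [Module ℝ V]
    (f : MultilinearMap ℝ (fun _ : Fin n => V) ℝ) (U : Option ι → (∀ i, Ω i) → V) (b : V)
    (k : ℕ) (hU : ∀ o x y, (∀ i, o = some i → x i = y i) → U o x = U o y) :
    Deg n (fun x => cf f (∑ o, U o x) b k) := by
  classical
  unfold cf
  refine Deg.sum _ fun S _ => ?_
  have h1 : ∀ x : ∀ i, Ω i, f (S.piecewise (fun _ => b) (fun _ => ∑ o, U o x)) =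
      f (fun j => ∑ o, if j ∈ S then (if o = none then b else 0) else U o x) := by
    intro x
    congr 1
    funext j
    by_cases hj : j ∈ S
    · simp [hj]
    · simp [hj]
  simp only [h1]
  refine degM f _ fun j o x y h => ?_
  by_cases hj : j ∈ S
  · simp [hj]
  · simp only [hj, if_false]
    exact hU o x y h

theorem degQ_cf {n : ℕ} {V : Type} [AddCommGroup V] [Module ℝ V]
    (f : MultilinearMap ℝ (fun _ : Fin n => V) (V →ₗ[ℝ] ℝ)) (U W : Option ι → (∀ i, Ω i) → V)
    (b : V) (k : ℕ) (hU : ∀ o x y, (∀ i, o = some i → x i = y i) → U o x = U o y)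
    (hW : ∀ o x y, (∀ i, o = some i → x i = y i) → W o x = W o y) :
    Deg (n + 1) (fun x => cf f (∑ o, U o x) b k (∑ o, W o x)) := by
  classical
  unfold cf
  simp only [LinearMap.sum_apply]
  refine Deg.sum _ fun S _ => ?_
  have h1 : ∀ x : ∀ i, Ω i, f (S.piecewise (fun _ => b) (fun _ => ∑ o, U o x)) =
      f (fun j => ∑ o, if j ∈ S then (if o = none then b else 0) else U o x) := by
    intro x
    congr 1
    funext j
    by_cases hj : j ∈ S
    · simp [hj]
    · simp [hj]
  simp only [h1]
  refine degQ f _ _ (fun j o x y h => ?_) hW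
  by_cases hj : j ∈ S
  · simp [hj]
  · simp only [hj, if_false]
    exact hU o x y h

end deg

end Pool.Agent.T9h77.QD
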