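import Pool.Agent.T9h77.QD.Rb1
import Pool.Agent.T9h42.GF.Rob2

/-!
# The vector valued dispersion lemma, part 2
-/

set_option autoImplicit false
set_option linter.unusedSectionVars false

namespace Pool.Agent.T9h77.QD

open Finset Pool.Agent.T9h42.GF Pool.Agent.T9h57.QD
open Pool.Agent.T9h71.GF (mix_mix mix_tower)
open Pool.Agent.T9h42.GF.Rob (mix_inter mix_of_subset moeb moeb_zero expand card_le_K sum_le_K)

section main

variable {ι : Type} [Fintype ι] [DecidableEq ι] {Ω : ι → Type} [∀ i, Fintype (Ω i)]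

/-- good points. -/
def Gd (p : ∀ i, Ω i → ℝ) (r : ℕ) (θ ρ : ℝ) (g : (∀ i, Ω i) → ℝ) (x : ∀ i, Ω i) : Prop :=
  ∀ T : Finset ι, T.card ≤ r → pce p T g x ≤ θ * ρ ^ (r - T.card)

variable {p : ∀ i, Ω i → ℝ}

theorem pce_nonneg (hp : IsP p) {g : (∀ i, Ω i) → ℝ} (hg : ∀ x, 0 ≤ g x) (T : Finset ι)
    (x : ∀ i, Ω i) : 0 ≤ pce p T g x := pav_nonneg hp fun _ => hg _

theorem ppr_false (hp : IsP p) {P : (∀ i, Ω i) → Prop} (h : ∀ x, ¬ P x) : ppr p P = 0 := by
  classical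
  unfold ppr
  simp only [h, if_false]
  exact pav_const hp 0

theorem ppr_nonneg (hp : IsP p) (P : (∀ i, Ω i) → Prop) : 0 ≤ ppr p P := by
  classical
  refine pav_nonneg hp fun x => ?_
  split_ifs
  · exact zero_le_one
  · exact le_refl _

theorem not_gd {r : ℕ} {θ ρ : ℝ} {g : (∀ i, Ω i) → ℝ} {x : ∀ i, Ω i}
    (h : ¬ Gd p r θ ρ g x) : ∃ T ∈ univ.filter (fun T : Finset ι => T.card ≤ r),
      θ * ρ ^ (r - T.card) < pce p T g x := by
  unfold Gd at h
  push Not at h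
  obtain ⟨T, h1, h2⟩ := h
  exact ⟨T, mem_filter.2 ⟨mem_univ _, h1⟩, h2⟩

theorem ppr_not_gd (hp : IsP p) {r : ℕ} {θ ρ : ℝ} {g : (∀ i, Ω i) → ℝ} (hg : ∀ x, 0 ≤ g x)
    (hθ : 0 < θ) (hρ : 0 < ρ) (hρ1 : ρ ≤ 1) :
    θ * ρ ^ r * ppr p (fun x => ¬ Gd p r θ ρ g x) ≤ 2 ^ Fintype.card ι * pav p g := by
  have h1 : ppr p (fun x => ¬ Gd p r θ ρ g x) ≤
      ∑ T ∈ univ.filter (fun T : Finset ι => T.card ≤ r),
        ppr p (fun x => θ * ρ ^ (r - T.card) < pce p T g x) :=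
    (ppr_mono hp fun x hx => not_gd hx).trans (ppr_exists hp _ _)
  have h0 : 0 < θ * ρ ^ r := by positivity
  refine (mul_le_mul_of_nonneg_left h1 h0.le).trans ?_
  rw [mul_sum]
  refine sum_le_K _ _ _ (pav_nonneg hp hg) fun T _ => ?_
  have h2 := pmarkov hp (fun x => pce_nonneg hp hg T x) (θ * ρ ^ (r - T.card)) (by positivity)
  rw [pav_pce hp] at h2
  refine le_trans (mul_le_mul_of_nonneg_right ?_ (ppr_nonneg hp _)) h2
  exact mul_le_mul_of_nonneg_left (pow_le_pow_of_le_one hρ.le hρ1 (Nat.sub_le _ _)) hθ.le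

theorem gd_mix (hp : IsP p) {r : ℕ} {θ ρ : ℝ} {g : (∀ i, Ω i) → ℝ} (hg : ∀ x, 0 ≤ g x)
    (hθ : 0 < θ) (hρ : 0 < ρ) (hρ1 : ρ ≤ 1) {x : ∀ i, Ω i} (hx : Gd p r θ ρ g x) (T : Finset ι)
    (hT : T.card ≤ r) :
    ppr p (fun y => ¬ Gd p r θ ρ g (mix T x y)) ≤ 2 ^ Fintype.card ι * ρ := by
  have h1 : ppr p (fun y => ¬ Gd p r θ ρ g (mix T x y)) ≤
      ∑ S ∈ univ.filter (fun S : Finset ι => S.card ≤ r),
        ppr p (fun y => θ * ρ ^ (r - S.card) < pce p S g (mix T x y)) :=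
    (ppr_mono hp fun y hy => not_gd hy).trans (ppr_exists hp _ _)
  refine h1.trans (sum_le_K _ _ _ hρ.le fun S hS => ?_)
  rw [mem_filter] at hS
  by_cases hST : S ⊆ T
  · rw [ppr_false hp]
    · exact hρ.le
    · intro y
      rw [pce_mix_of_subset hST, not_lt]
      exact hx S hS.2
  · have h2 := pmarkov hp (fun y => pce_nonneg hp hg S (mix T x y)) (θ * ρ ^ (r - S.card))
      (by positivity)
    rw [pav_pce_mix hp] at h2
    have h3 : (T ∩ S).card < S.card := by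
      refine card_lt_card ((ssubset_iff_subset_ne).2 ⟨inter_subset_right, fun h => hST ?_⟩)
      rw [← h]
      exact inter_subset_left
    have h4 := hx (T ∩ S) (by omega)
    have h5 : ρ ^ (r - (T ∩ S).card) ≤ ρ ^ (r - S.card) * ρ := by
      rw [← pow_succ]
      exact pow_le_pow_of_le_one hρ.le hρ1 (by omega)
    have h6 : θ * ρ ^ (r - S.card) *
        ppr p (fun y => θ * ρ ^ (r - S.card) < pce p S g (mix T x y)) ≤
        θ * ρ ^ (r - S.card) * ρ := by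
      refine h2.trans (h4.trans ?_)
      rw [mul_assoc]
      exact mul_le_mul_of_nonneg_left h5 hθ.le
    exact le_of_mul_le_mul_left h6 (by positivity)

theorem pchoose_y (hp : IsP p) {r : ℕ} {θ ρ η₁ : ℝ} {g : (∀ i, Ω i) → ℝ} (hg : ∀ x, 0 ≤ g x)
    (hθ : 0 < θ) (hρ : 0 < ρ) (hρ1 : ρ ≤ 1) (hη₁ : 0 < η₁)
    (hsm : (2 ^ Fintype.card ι) ^ 2 * ρ + (2 ^ Fintype.card ι) ^ 4 * ρ / η₁ < 1)
    {x : ∀ i, Ω i} (hx : Gd p r θ ρ g x) :
    ∃ y, (∀ T : Finset ι, T.card ≤ r → Gd p r θ ρ g (mix T x y)) ∧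
      ∀ T S : Finset ι, T.card ≤ r →
        ppr p (fun z => ∃ R ∈ S.powerset, ¬ Gd p r θ ρ g (mix R (mix T x z) y)) ≤ η₁ := by
  classical
  set K : ℝ := 2 ^ Fintype.card ι with hK
  have hK0 : 0 < K := by positivity
  set Fr := univ.filter (fun T : Finset ι => T.card ≤ r) with hFr
  set f1 : (∀ i, Ω i) → ℝ := fun y => ∑ T ∈ Fr,
    if ¬ Gd p r θ ρ g (mix T x y) then (1 : ℝ) else 0 with hf1
  set f2 : (∀ i, Ω i) → ℝ := fun y => ∑ T ∈ Fr, ∑ S ∈ (univ : Finset (Finset ι)),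
    ppr p (fun z => ∃ R ∈ S.powerset, ¬ Gd p r θ ρ g (mix R (mix T x z) y)) with hf2
  have ha1 : pav p f1 ≤ K * (K * ρ) := by
    rw [hf1, pav_sum]
    refine sum_le_K _ _ _ (by positivity) fun T hT => ?_
    have h0 := gd_mix hp hg hθ hρ hρ1 hx T (mem_filter.1 hT).2
    unfold ppr at h0
    convert h0
  have ha2 : pav p f2 ≤ K * (K * (K * (K * ρ))) := by
    rw [hf2, pav_sum]
    refine sum_le_K _ _ _ (by positivity) fun T hT => ?_
    rw [pav_sum]
    refine sum_le_K _ _ _ (by positivity) fun S _ => ?_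
    have h1 : pav p (fun y => ppr p (fun z => ∃ R ∈ S.powerset,
        ¬ Gd p r θ ρ g (mix R (mix T x z) y))) ≤
        pav p (fun y => ∑ R ∈ S.powerset,
          ppr p (fun z => ¬ Gd p r θ ρ g (mix R (mix T x z) y))) :=
      pav_mono hp fun y => ppr_exists hp _ _
    refine h1.trans ?_
    rw [pav_sum]
    refine sum_le_K _ _ _ (by positivity) fun R _ => ?_
    have h2 : pav p (fun y => ppr p (fun z => ¬ Gd p r θ ρ g (mix R (mix T x z) y))) =
        ppr p (fun y => ¬ Gd p r θ ρ g (mix (T ∩ R) x y)) := by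
      unfold ppr
      rw [pav_comm]
      simp only [mix_inter]
      have h0 := pav_mix hp R (fun w => if ¬ Gd p r θ ρ g (mix (T ∩ R) x w) then (1 : ℝ) else 0)
      convert h0
    rw [h2]
    exact gd_mix hp hg hθ hρ hρ1 hx (T ∩ R)
      ((card_le_card inter_subset_left).trans (mem_filter.1 hT).2)
  obtain ⟨y, hy⟩ := exists_le_pav hp (fun y => f1 y + 1 / η₁ * f2 y)
  rw [pav_add, pav_mul] at hy
  have h3 : f1 y + 1 / η₁ * f2 y < 1 := by
    have h4 : 1 / η₁ * pav p f2 ≤ 1 / η₁ * (K * (K * (K * (K * ρ)))) :=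
      mul_le_mul_of_nonneg_left ha2 (by positivity)
    have h5 : K * (K * ρ) + 1 / η₁ * (K * (K * (K * (K * ρ)))) < 1 := by
      refine lt_of_le_of_lt (le_of_eq ?_) hsm
      ring
    linarith
  have hn1 : ∀ T ∈ Fr, 0 ≤ (if ¬ Gd p r θ ρ g (mix T x y) then (1 : ℝ) else 0) := by
    intro T _
    split_ifs
    · exact le_refl _
    · exact zero_le_one
  have hf1n : 0 ≤ f1 y := sum_nonneg hn1
  have hf2n : 0 ≤ f2 y := sum_nonneg fun T _ => sum_nonneg fun S _ => ppr_nonneg hp _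
  refine ⟨y, fun T hT => ?_, fun T S hT => ?_⟩
  · by_contra hcon
    have h6 : (1 : ℝ) ≤ f1 y := by
      calc (1 : ℝ) = (if ¬ Gd p r θ ρ g (mix T x y) then (1 : ℝ) else 0) := by rw [if_pos hcon]
        _ ≤ f1 y := single_le_sum (f := fun T => if ¬ Gd p r θ ρ g (mix T x y) then (1 : ℝ) else 0)
            hn1 (mem_filter.2 ⟨mem_univ _, hT⟩)
    have h7 : 0 ≤ 1 / η₁ * f2 y := by positivity
    linarith
  · have h6 : ppr p (fun z => ∃ R ∈ S.powerset, ¬ Gd p r θ ρ g (mix R (mix T x z) y)) ≤ f2 y := by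
      calc _ ≤ ∑ S ∈ (univ : Finset (Finset ι)),
            ppr p (fun z => ∃ R ∈ S.powerset, ¬ Gd p r θ ρ g (mix R (mix T x z) y)) :=
            single_le_sum (f := fun S : Finset ι =>
              ppr p (fun z => ∃ R ∈ S.powerset, ¬ Gd p r θ ρ g (mix R (mix T x z) y)))
              (fun S _ => ppr_nonneg hp _) (mem_univ S)
        _ ≤ f2 y := single_le_sum (f := fun T : Finset ι => ∑ S ∈ (univ : Finset (Finset ι)),
              ppr p (fun z => ∃ R ∈ S.powerset, ¬ Gd p r θ ρ g (mix R (mix T x z) y)))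
              (fun T _ => sum_nonneg fun S _ => ppr_nonneg hp _) (mem_filter.2 ⟨mem_univ _, hT⟩)
    have h7 : 1 / η₁ * f2 y < 1 := by linarith
    rw [one_div, inv_mul_lt_iff₀ hη₁, mul_one] at h7
    exact h6.trans h7.le

end main

end Pool.Agent.T9h77.QD
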